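import Mathlib
import Pool.Agent.Results.MP_3bc45c_nt.RecordGapsAtPrescribedPlaces
import Pool.Agent.helper391_DG.Ana
import Pool.Agent.helper391_DG.Arith
import Pool.Agent.helper391_DG.Dig

set_option autoImplicit false

/-! Record gaps around integers whose multiples all have the same sum of digits. -/

namespace Pool.Agent.helper391_MD

open Finset Filter
open Pool.Agent.helper391_DG

theorem main (b : ℕ) (hb : 2 ≤ b) (δ : ℝ) (hδ : 0 < δ) (hδ1 : δ ≤ 1) :
    ∃ κ : ℝ, 0 < κ ∧ ∃ k₀ : ℕ, ∀ k : ℕ, k₀ ≤ k → k.Prime → ∀ z : ℕ,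
      (z : ℝ) + (b : ℝ) ^ ((1 + δ) * k) ≤ (b : ℝ) ^ (2 * k) - (b : ℝ) ^ k →
      ∃ n : ℕ, z < n ∧ (n : ℝ) ≤ z + (b : ℝ) ^ ((1 + δ) * k) ∧
        (∀ m : ℕ, n ∣ m → 0 < m → m ≤ b ^ (2 * k) - b ^ k → ds b m = (b - 1) * k) ∧
        ∀ p : ℕ, p.Prime → κ * F (Real.log ((b : ℝ) ^ (2 * k))) < |(p : ℝ) - n| := by
  have hbR : (2 : ℝ) ≤ b := by exact_mod_cast hb
  have hlb : 0 < Real.log b := Real.log_pos (by linarith)
  set δ' : ℝ := δ / 4 with hδ'
  have hδ'0 : 0 < δ' := by positivity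
  have hδ'1 : δ' < 1 := by rw [hδ']; linarith
  obtain ⟨c, hc, x₀, hbb⟩ := Pool.Agent.Results.MP_3bc45c_nt.RecordGapsAtPrescribedPlaces.result
    δ' (2 * Real.log b) hδ'0 hδ'1 (by positivity)
  obtain ⟨R, hR⟩ := F_scale (1 / 2) (by norm_num)
  obtain ⟨X₁, hX₁⟩ := eventually_atTop.1 ((eventually_ge_atTop x₀).and (thr_large (b : ℝ)))
  have hcast : Tendsto (fun k : ℕ => (k : ℝ)) atTop atTop := tendsto_natCast_atTop_atTop
  have hlogK : Tendsto (fun k : ℕ => Real.log (k : ℝ)) atTop atTop :=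
    Real.tendsto_log_atTop.comp hcast
  have hb1 : (0 : ℝ) < ((b - 1 : ℕ) : ℝ) := by
    have : 0 < b - 1 := by omega
    exact_mod_cast this
  obtain ⟨k₀, hk₀⟩ := eventually_atTop.1 (((((hcast.eventually_ge_atTop X₁).and
    (hlogK.eventually_ge_atTop 1)).and (hcast.eventually_ge_atTop (2 * Real.log b))).and
      (hcast.eventually_ge_atTop (R / Real.log b))).and
        (hlogK.eventually_ge_atTop (2 * Real.log b)))
  refine ⟨c * (1 / (2 * ((b - 1 : ℕ) : ℝ)) * (1 / 16)), by positivity, k₀,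
    fun k hk hkp z hz => ?_⟩
  obtain ⟨⟨⟨⟨a1, a2⟩, a3⟩, a4⟩, a5⟩ := hk₀ k hk
  have hk2 : 2 ≤ k := hkp.two_le
  have hkR : (2 : ℝ) ≤ k := by exact_mod_cast hk2
  set x : ℝ := (b : ℝ) ^ ((1 + δ) * k) with hx
  have hx0 : 0 < x := by rw [hx]; positivity
  have hlx : Real.log x = (1 + δ) * k * Real.log b := by
    rw [hx, Real.log_rpow (by linarith)]
  set d := b ^ k - 1 with hd
  have hbk : b ^ k = d + 1 := by
    have : 1 ≤ b ^ k := Nat.one_le_pow _ _ (by omega)
    omega
  have hd1 : 1 ≤ d := by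
    have h1 : 2 ^ 1 ≤ b ^ k := (Nat.pow_le_pow_left hb 1).trans
      (Nat.pow_le_pow_right (by omega) (by omega))
    omega
  have hdR : (d : ℝ) ≤ (b : ℝ) ^ k := by
    have : d ≤ b ^ k := by omega
    exact_mod_cast this
  have hkb : (k : ℝ) ≤ (b : ℝ) ^ k := by
    have : k < b ^ k := Nat.lt_pow_self (by omega)
    exact_mod_cast this.le
  have hbkx : (b : ℝ) ^ k ≤ x := by
    rw [hx, ← Real.rpow_natCast]
    apply Real.rpow_le_rpow_of_exponent_le (by linarith)
    nlinarith
  obtain ⟨t1, t2⟩ := hX₁ x (by linarith)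
  have hlx0 : 0 < Real.log x := by rw [hlx]; positivity
  have hllx : Real.log (Real.log x) ≤ 2 * Real.log k := by
    have h1 : Real.log (Real.log x) ≤ Real.log ((k : ℝ) ^ 2) := by
      apply Real.log_le_log hlx0
      rw [hlx]
      calc (1 + δ) * k * Real.log b ≤ 2 * k * Real.log b := by gcongr; linarith
        _ = k * (2 * Real.log b) := by ring
        _ ≤ k * k := by gcongr
        _ = (k : ℝ) ^ 2 := by ring
    rw [Real.log_pow] at h1
    exact_mod_cast h1
  have hllx0 : 0 < Real.log (Real.log x) := by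
    apply Real.log_pos
    rw [hlx]
    have h2 : 0.69 ≤ Real.log b := by
      have h1 := Real.log_two_gt_d9
      have h3 := Real.log_le_log (by norm_num) hbR
      linarith
    have h4 : (2 : ℝ) * 0.69 ≤ (1 + δ) * k * Real.log b := by
      have h5 : (2 : ℝ) ≤ (1 + δ) * k := by nlinarith
      exact mul_le_mul h5 h2 (by norm_num) (by linarith)
    linarith
  have hsum := large_sum (b := b) (m := 1) hb le_rfl hkp
    (Real.exp (Real.log (Real.log x) * Real.log (Real.log (Real.log (Real.log x))) /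
        (20 * Real.log (Real.log (Real.log x))))) (by push_cast; linarith) t2
  rw [mul_one, ← hd] at hsum
  have hcond : (∑ p ∈ d.primeFactors with
      Real.exp (Real.log (Real.log x) * Real.log (Real.log (Real.log (Real.log x))) /
        (20 * Real.log (Real.log (Real.log x)))) < ((p : ℕ) : ℝ), 1 / ((p : ℕ) : ℝ)) ≤
      2 * Real.log b / Real.log (Real.log x) := by
    refine hsum.trans ?_
    rw [div_le_div_iff₀ (by linarith) hllx0]
    calc Real.log b * Real.log (Real.log x) ≤ Real.log b * (2 * Real.log k) := by gcongr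
      _ = 2 * Real.log b * Real.log k := by ring
  have htot := tot_ge (b := b) (m := 1) hb le_rfl hkp (by
    rw [div_le_div_iff₀ (by linarith) (by norm_num)]
    linarith)
  rw [mul_one, ← hd, Nat.cast_one, one_mul] at htot
  have hsize : (d : ℝ) ≤ x ^ (1 - δ') := by
    refine hdR.trans ?_
    rw [hx, ← Real.rpow_mul (by linarith), ← Real.rpow_natCast]
    apply Real.rpow_le_rpow_of_exponent_le (by linarith)
    rw [hδ']
    have h1 : (1 : ℝ) ≤ (1 + δ) * (1 - δ / 4) := by nlinarith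
    calc (k : ℝ) = 1 * k := (one_mul _).symm
      _ ≤ (1 + δ) * (1 - δ / 4) * k := by gcongr
      _ = (1 + δ) * k * (1 - δ / 4) := by ring
  obtain ⟨n, hn1, hn2, hn3, hn4⟩ := hbb x t1 d hd1 hsize hcond 0 z
  have hdn : d ∣ n := Nat.modEq_zero_iff_dvd.1 hn1
  refine ⟨n, hn2, hn3, ?_, ?_⟩
  · intro m hnm hm0 hm
    obtain ⟨j, rfl⟩ := hdn.trans hnm
    have hj1 : 1 ≤ j := by
      rcases Nat.eq_zero_or_pos j with h | h
      · rw [h, mul_zero] at hm0; exact absurd hm0 (lt_irrefl _)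
      · exact h
    have hj2 : j ≤ b ^ k := by
      have h1 : b ^ (2 * k) - b ^ k = d * b ^ k := by
        rw [two_mul, pow_add, hd, Nat.sub_mul, one_mul]
      rw [h1] at hm
      exact Nat.le_of_mul_le_mul_left hm hd1
    rw [mul_comm, hd]
    exact ds_mult hb k j hj1 hj2
  · intro p hp
    refine lt_of_le_of_lt ?_ (hn4 p hp)
    have hL : Real.log ((b : ℝ) ^ (2 * k)) = 2 * k * Real.log b := by
      rw [Real.log_pow]; push_cast; ring
    rw [hL]
    obtain ⟨hF1, hF2⟩ := hR (2 * k * Real.log b) (by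
      rw [div_le_iff₀ hlb] at a4
      have : 0 ≤ k * Real.log b := by positivity
      linarith) (Real.log x) (by
        rw [hlx]
        have : 0 ≤ δ * k * Real.log b := by positivity
        nlinarith) (by
        rw [hlx]
        have h1 : (1 + δ) * k * Real.log b ≤ 2 * k * Real.log b := by gcongr; linarith
        exact h1)
    have h3 : F (Real.log x) = Real.log x * (Real.log (Real.log x)) ^ 2 *
          Real.log (Real.log (Real.log (Real.log x))) / (Real.log (Real.log (Real.log x))) ^ 2 := rfl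
    rw [← h3]
    calc c * (1 / (2 * ((b - 1 : ℕ) : ℝ)) * (1 / 16)) * F (2 * k * Real.log b)
        = c * (1 / (2 * ((b - 1 : ℕ) : ℝ)) * (1 / 2 / 8 * F (2 * k * Real.log b))) := by ring
      _ ≤ c * ((Nat.totient d : ℝ) / d * F (Real.log x)) := by
          gcongr

end Pool.Agent.helper391_MD
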